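import Pool.Agent.LRS.Stmts

/-! Squad LRS, row SBF: the number of subfields of a number field. -/

set_option autoImplicit false

namespace Pool.Agent.LRS.H85

open Polynomial NumberField

/-- A subfield is determined by the pairs of embeddings which agree on it. -/
theorem le_of_rel {K : Type} [Field K] [NumberField K] (E E' : IntermediateField ℚ K)
    (h : ∀ σ τ : K →+* ℂ, (∀ b ∈ E', σ b = τ b) → ∀ b ∈ E, σ b = τ b) : E ≤ E' := by
  intro b hb
  by_contra hnot
  let σ₀ : K →+* ℂ := Classical.arbitrary (K →+* ℂ)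
  let : Algebra E' ℂ := (σ₀.comp (algebraMap E' K)).toAlgebra
  have halg : Algebra.IsAlgebraic E' K := Algebra.IsAlgebraic.of_finite E' K
  have hint : IsIntegral E' b := Algebra.IsIntegral.isIntegral b
  have hdeg : 2 ≤ (minpoly E' b).natDegree := by
    rw [minpoly.two_le_natDegree_iff hint]
    rintro ⟨c, hc⟩
    apply hnot
    rw [← hc]
    exact c.2
  have hsep : (minpoly E' b).Separable := (minpoly.irreducible hint).separable
  have hcard : Fintype.card ((minpoly E' b).rootSet ℂ) = (minpoly E' b).natDegree :=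
    card_rootSet_eq_natDegree hsep (IsAlgClosed.splits _)
  have hone : ∀ x y : (minpoly E' b).rootSet ℂ, x = y := by
    intro x y
    have hx : (x : ℂ) ∈ Set.range fun ψ : K →ₐ[E'] ℂ => ψ b := by
      rw [Algebra.IsAlgebraic.range_eval_eq_rootSet_minpoly ℂ b]
      exact x.2
    have hy : (y : ℂ) ∈ Set.range fun ψ : K →ₐ[E'] ℂ => ψ b := by
      rw [Algebra.IsAlgebraic.range_eval_eq_rootSet_minpoly ℂ b]
      exact y.2
    obtain ⟨φ, hφ⟩ := hx
    obtain ⟨ψ, hψ⟩ := hy
    apply Subtype.ext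
    rw [← hφ, ← hψ]
    refine h φ.toRingHom ψ.toRingHom (fun c hc => ?_) b hb
    have h1 := φ.commutes ⟨c, hc⟩
    have h2 := ψ.commutes ⟨c, hc⟩
    exact h1.trans h2.symm
  have hle : Fintype.card ((minpoly E' b).rootSet ℂ) ≤ 1 :=
    Fintype.card_le_one_iff.2 hone
  omega

theorem sbf : SbfStmt := by
  intro K _ _ n hn
  classical
  let R : IntermediateField ℚ K → Set ((K →+* ℂ) × (K →+* ℂ)) := fun E =>
    {w | ∀ b ∈ E, w.1 b = w.2 b}
  have hinj : Function.Injective R := by
    intro E E' hEE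
    have h1 : ∀ w : (K →+* ℂ) × (K →+* ℂ), w ∈ R E ↔ w ∈ R E' := fun w => by rw [hEE]
    exact le_antisymm
      (le_of_rel E E' fun σ τ hst => (h1 (σ, τ)).2 hst)
      (le_of_rel E' E fun σ τ hst => (h1 (σ, τ)).1 hst)
  have hfin : Finite (IntermediateField ℚ K) := Finite.of_injective R hinj
  refine ⟨hfin, ?_⟩
  have h2 := Nat.card_le_card_of_injective R hinj
  have h3 : Nat.card (Set ((K →+* ℂ) × (K →+* ℂ))) = 2 ^ (n * n) := by
    rw [Nat.card_eq_fintype_card, Fintype.card_set, Fintype.card_prod,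
      NumberField.Embeddings.card, hn]
  rw [h3] at h2
  exact h2

end Pool.Agent.LRS.H85
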